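import Pool.Agent.H86.OL.R

/-! # MP_03a37b_gt: 1-symmetric singular points at the orbifold points of a noncollapsed limit of Einstein 5-manifolds

The definitions (tangent cones, symmetry, the strata `S^k`, the singular set `S`, orbifold charts, singular curves) are
in `Pool/Agent/H86/OL/Defs.lean`.
-/

set_option autoImplicit false

namespace Pool.Agent.Results.MP_03a37b_gt.OrbifoldLimits

open Set Filter Topology OL86

/-- **Theorem.** -/
theorem result (X : Type) [MetricSpace X] (U : Set X) (O : OrbifoldOn X U) (x : X) (hx : x ∈ U) :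
    -- regular points
    (x ∉ singularSet X → SingularNear x ∅) ∧
    -- 1-symmetric singular points (Q1)
    (x ∈ oneSymmetric X → ∃ c : ℝ → X, IsArc c (-1) 1 ∧ c 0 = x ∧ (∀ t ∈ Icc (-1 : ℝ) 1, c t ∈ oneSymmetric X) ∧
      SingularNear x (c '' Icc (-1) 1)) ∧
    -- the other singular points
    (x ∈ stratum X 0 → (IsPlusMinus (O.G x) ∧ SingularNear x {x}) ∨
      ∃ c : ℝ → X, IsArc c 0 1 ∧ c 0 = x ∧ (∀ t ∈ Ioc (0 : ℝ) 1, c t ∈ oneSymmetric X) ∧
        SingularNear x (c '' Icc 0 1)) ∧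
    -- sequences of distinct points of `S^1` (Q2)
    (∀ a : ℕ → X, Function.Injective a → (∀ j, a j ∈ stratum X 1) → Tendsto a atTop (𝓝 x) →
      ∃ c : ℝ → X, IsSingularCurve c ∧ x ∈ c '' Icc 0 1 ∧ ∀ᶠ j in atTop, a j ∈ c '' Icc 0 1) := by
  have hCN := singular_stratum O
  have hSU : ∀ {y : X}, y ∈ U → y ∈ stratum X 1 → y ∈ singularSet X := fun {y} hy h =>
    (singular_iff O hCN hy).2 ((stratum_iff O hCN hy).1 h)
  have hUn : U ∈ 𝓝 x := by
    refine mem_of_superset (nhd O hx (O.rad_pos x hx) le_rfl) ?_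
    rintro _ ⟨v, hv, rfl⟩
    exact O.chart_mem x hx v hv
  have h0S : x ∈ stratum X 0 → x ∈ singularSet X := by
    intro h
    rw [singular_iff O hCN hx]
    intro h1
    refine (notMem_zero O hx).2 ?_ h
    refine ⟨EuclideanSpace.single 0 1, ?_, ?_⟩
    · intro h2
      have h3 : (EuclideanSpace.single (0 : Fin 5) (1 : ℝ)) 0 = (0 : E5) 0 := by rw [h2]
      simp at h3
    · intro g hg
      rw [h1, Subgroup.mem_bot] at hg
      rw [hg]
      rfl
  have hseq : ∀ a : ℕ → X, (∀ j, a j ∈ stratum X 1) → Tendsto a atTop (𝓝 x) → ∀ᶠ j in atTop, a j ∈ singularSet X := by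
    intro a ha hax
    filter_upwards [hax.eventually hUn] with j hj
    exact hSU hj (ha j)
  rcases shapes O hCN hx with ⟨hxs, hnear⟩ | ⟨hxs, hx0, hG, hnear⟩ | ⟨hxs, hx0, c, hc, hinj, hc0, hone, hnear⟩ |
      ⟨hxs, hx0, c, hc, hinj, hc0, hone, hnear⟩
  · have hnear' : SingularNear x (∅ : Set X) := hnear.mono (fun y hy => ⟨fun h => absurd h hy, fun h => h.elim⟩)
    refine ⟨fun _ => hnear', fun h => absurd (hSU hx h.1) hxs, fun h => absurd (h0S h) hxs, ?_⟩
    intro a _ ha hax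
    exfalso
    obtain ⟨j, h1, h2⟩ := ((hseq a ha hax).and (hax.eventually hnear)).exists
    exact h2 h1
  · refine ⟨fun h => absurd hxs h, fun h => absurd hx0 h.2, fun _ => Or.inl ⟨hG, hnear⟩, ?_⟩
    intro a hinj ha hax
    exfalso
    obtain ⟨N, hN⟩ := ((hseq a ha hax).and (hax.eventually hnear)).exists_forall_of_atTop
    have h1 := (hN N le_rfl).2.1 (hN N le_rfl).1
    have h2 := (hN (N + 1) (Nat.le_succ N)).2.1 (hN (N + 1) (Nat.le_succ N)).1
    have h3 := hinj (h1.trans h2.symm)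
    omega
  · refine ⟨fun h => absurd hxs h, fun _ => ⟨c, ⟨hc, hinj⟩, hc0, fun t ht => (hone t ht).2, hnear⟩,
      fun h => absurd h hx0, ?_⟩
    intro a _ ha hax
    have hI : ∀ t ∈ Icc (0 : ℝ) 1, 2 * t - 1 ∈ Icc (-1 : ℝ) 1 := by
      intro t ht
      rw [mem_Icc] at ht ⊢
      constructor <;> linarith [ht.1, ht.2]
    refine ⟨fun t => c (2 * t - 1), ⟨⟨?_, ?_⟩, ?_⟩, ?_, ?_⟩
    · exact hc.comp (f := fun t : ℝ => 2 * t - 1) (Continuous.continuousOn (by fun_prop)) hI
    · intro s hs t ht hst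
      have h2 := hinj (hI s hs) (hI t ht) hst
      linarith
    · intro t ht
      obtain ⟨h1, h2⟩ := hone _ (hI t ht)
      exact hSU h1 h2.1
    · refine ⟨1 / 2, by rw [mem_Icc]; constructor <;> norm_num, ?_⟩
      simp only []
      rw [show 2 * (1 / 2 : ℝ) - 1 = 0 by ring, hc0]
    · filter_upwards [hseq a ha hax, hax.eventually hnear] with j hj1 hj2
      obtain ⟨t, ht, hty⟩ := hj2.1 hj1
      refine ⟨(t + 1) / 2, ?_, ?_⟩
      · rw [mem_Icc] at ht ⊢
        constructor <;> linarith [ht.1, ht.2]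
      · simp only []
        rw [show 2 * ((t + 1) / 2) - 1 = t by ring]
        exact hty
  · refine ⟨fun h => absurd hxs h, fun h => absurd hx0 h.2,
      fun _ => Or.inr ⟨c, ⟨hc, hinj⟩, hc0, fun t ht => (hone t ht).2, hnear⟩, ?_⟩
    intro a _ ha hax
    refine ⟨c, ⟨⟨hc, hinj⟩, ?_⟩, ⟨0, by rw [mem_Icc]; constructor <;> norm_num, hc0⟩, ?_⟩
    · intro t ht
      rcases eq_or_lt_of_le ht.1 with h | h
      · rw [← h, hc0]
        exact hxs
      · obtain ⟨h1, h2⟩ := hone t ⟨h, ht.2⟩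
        exact hSU h1 h2.1
    · filter_upwards [hseq a ha hax, hax.eventually hnear] with j hj1 hj2
      exact hj2.1 hj1

end Pool.Agent.Results.MP_03a37b_gt.OrbifoldLimits
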